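import Pool.Agent.H870R4.Noz.Stmts

set_option autoImplicit false

open MeasureTheory Set
open scoped ContDiff

namespace Pool.Agent.H683R3.Noz

open H870N

/-- derivatives of a `C^1` function of `(t, x)` -/
lemma facts (O : Set E2) (U : ℝ × E2 → ℝ) (T : ℝ) (hO : IsOpen O)
    (h : ContDiffOn ℝ 1 U (Ioo (-T) T ×ˢ O)) (t : ℝ) (ht : t ∈ Ioo (-T) T) (x : E2) (hx : x ∈ O) :
    DifferentiableAt ℝ U (t, x) ∧ deriv (fun s => U (s, x)) t = fderiv ℝ U (t, x) (1, 0) ∧
    ∀ v : E2, inner ℝ (gradient (fun y => U (t, y)) x) v = fderiv ℝ U (t, x) (0, v) := by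
  have hd : DifferentiableAt ℝ U (t, x) :=
    (h.differentiableOn (by norm_num)).differentiableAt ((isOpen_Ioo.prod hO).mem_nhds ⟨ht, hx⟩)
  refine ⟨hd, ?_, fun v => ?_⟩
  · have h1 : HasDerivAt (fun s : ℝ => ((s, x) : ℝ × E2)) (1, 0) t :=
      (hasDerivAt_id t).prodMk (hasDerivAt_const t x)
    exact (hd.hasFDerivAt.comp_hasDerivAt t h1).deriv
  · have h1 : HasFDerivAt (fun y : E2 => ((t, y) : ℝ × E2)) (ContinuousLinearMap.inr ℝ ℝ E2) x :=
      hasFDerivAt_prodMk_right t x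
    have h2 : HasFDerivAt (fun y => U (t, y))
        ((fderiv ℝ U (t, x)).comp (ContinuousLinearMap.inr ℝ ℝ E2)) x :=
      hd.hasFDerivAt.comp x h1
    rw [gradient, InnerProductSpace.toDual_symm_apply, h2.fderiv]
    simp

lemma norm_grad_le (O : Set E2) (U : ℝ × E2 → ℝ) (T : ℝ) (hO : IsOpen O)
    (h : ContDiffOn ℝ 1 U (Ioo (-T) T ×ˢ O)) (t : ℝ) (ht : t ∈ Ioo (-T) T) (x : E2) (hx : x ∈ O) :
    ‖gradient (fun y => U (t, y)) x‖ ≤ ‖fderiv ℝ U (t, x)‖ := by
  obtain ⟨-, -, h3⟩ := facts O U T hO h t ht x hx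
  set g := gradient (fun y => U (t, y)) x with hg
  have h4 := h3 g
  rw [real_inner_self_eq_norm_sq] at h4
  have h5 : fderiv ℝ U (t, x) (0, g) ≤ ‖fderiv ℝ U (t, x)‖ * ‖g‖ := by
    refine (le_abs_self _).trans (((fderiv ℝ U (t, x)).le_opNorm _).trans ?_)
    apply mul_le_mul_of_nonneg_left _ (norm_nonneg _)
    rw [Prod.norm_mk, norm_zero]
    exact max_le (norm_nonneg _) le_rfl
  rcases (norm_nonneg g).eq_or_lt with h6 | h6
  · rw [← h6]; exact norm_nonneg _
  · rw [← h4] at h5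
    have : ‖g‖ * ‖g‖ ≤ ‖fderiv ℝ U (t, x)‖ * ‖g‖ := by nlinarith
    exact le_of_mul_le_mul_right this h6

lemma one_side (O K' : Set E2) (Q : E2 → ℝ) (U1 U2 : ℝ × E2 → ℝ) (T : ℝ) (hO : IsOpen O)
    (h1 : ContDiffOn ℝ 1 U1 (Ioo (-T) T ×ˢ O)) (h2 : ContDiffOn ℝ 1 U2 (Ioo (-T) T ×ˢ O))
    (e1 : ∀ t ∈ Ioo 0 T, ∀ x ∈ O, deriv (fun s => U1 (s, x)) t =
      1 / 2 * ‖gradient (fun y => U1 (t, y)) x‖ ^ 2 - Q x)
    (e2 : ∀ t ∈ Ioo 0 T, ∀ x ∈ O, deriv (fun s => U2 (s, x)) t =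
      1 / 2 * ‖gradient (fun y => U2 (t, y)) x‖ ^ 2 - Q x)
    (h0 : ∀ x ∈ O, U1 (0, x) = U2 (0, x)) (M : ℝ) (hM : 0 ≤ M) (hK' : K' ⊆ O)
    (t0 : ℝ) (ht0 : 0 < t0) (ht0T : t0 < T)
    (hb1 : ∀ t ∈ Icc 0 t0, ∀ x ∈ K', ‖gradient (fun y => U1 (t, y)) x‖ ≤ M)
    (hb2 : ∀ t ∈ Icc 0 t0, ∀ x ∈ K', ‖gradient (fun y => U2 (t, y)) x‖ ≤ M)
    (x0 : E2) (hC : Metric.closedBall x0 (M * t0) ⊆ K') : U1 (t0, x0) ≤ U2 (t0, x0) := by
  -- the cone
  set C : Set (ℝ × E2) := {z | 0 ≤ z.1 ∧ z.1 ≤ t0 ∧ ‖z.2 - x0‖ ≤ M * (t0 - z.1)} with hCdef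
  have hCsub : ∀ z ∈ C, z.1 ∈ Icc 0 t0 ∧ z.2 ∈ K' := by
    rintro ⟨t, x⟩ ⟨ha, hb, hc⟩
    refine ⟨⟨ha, hb⟩, hC ?_⟩
    rw [Metric.mem_closedBall, dist_eq_norm]
    simp only at ha hb hc ⊢
    refine hc.trans ?_
    apply mul_le_mul_of_nonneg_left _ hM
    linarith
  have hCclosed : IsClosed C := by
    apply IsClosed.inter (isClosed_le continuous_const continuous_fst)
    apply IsClosed.inter (isClosed_le continuous_fst continuous_const)
    have c1 : Continuous fun z : ℝ × E2 => ‖z.2 - x0‖ := by fun_prop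
    have c2 : Continuous fun z : ℝ × E2 => M * (t0 - z.1) := by fun_prop
    exact isClosed_le c1 c2
  have hCcomp : IsCompact C := by
    refine IsCompact.of_isClosed_subset
      ((isCompact_Icc (a := (0 : ℝ)) (b := t0)).prod
        (isCompact_closedBall x0 (M * t0))) hCclosed ?_
    rintro ⟨t, x⟩ ⟨ha, hb, hc⟩
    refine ⟨⟨ha, hb⟩, ?_⟩
    rw [Metric.mem_closedBall, dist_eq_norm]
    simp only at ha hb hc ⊢
    refine hc.trans ?_
    apply mul_le_mul_of_nonneg_left _ hM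
    linarith
  have hIoo : ∀ z ∈ C, z.1 ∈ Ioo (-T) T ∧ z.2 ∈ O := by
    intro z hz
    obtain ⟨⟨ha, hb⟩, hc⟩ := hCsub z hz
    exact ⟨⟨by linarith, by linarith⟩, hK' hc⟩
  have hmem0 : (t0, x0) ∈ C := by
    refine ⟨ht0.le, le_rfl, ?_⟩
    simp
  -- maximum of `U1 - U2 - ε t`
  have key : ∀ ε : ℝ, 0 < ε → U1 (t0, x0) ≤ U2 (t0, x0) + ε * t0 := by
    intro ε hε
    have hcont : ContinuousOn (fun z : ℝ × E2 => U1 z - U2 z - ε * z.1) C := by
      intro z hz
      have hz' := hIoo z hz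
      have d1 := (facts O U1 T hO h1 z.1 hz'.1 z.2 hz'.2).1
      have d2 := (facts O U2 T hO h2 z.1 hz'.1 z.2 hz'.2).1
      exact ((d1.continuousAt.sub d2.continuousAt).sub
        (continuous_const.mul continuous_fst).continuousAt).continuousWithinAt
    obtain ⟨z, hz, hmax⟩ := hCcomp.exists_isMaxOn ⟨_, hmem0⟩ hcont
    obtain ⟨t, x⟩ := z
    obtain ⟨ha, hb, hc⟩ := id hz
    simp only at ha hb hc
    have hmax0 := hmax hmem0
    simp only [mem_setOf_eq] at hmax0
    rcases ha.eq_or_lt with hat | hat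
    · have hxO := (hIoo _ hz).2
      have := h0 x hxO
      rw [← hat, this] at hmax0
      linarith
    · exfalso
      have hz' := hIoo _ hz
      simp only at hz'
      obtain ⟨d1, f1, g1⟩ := facts O U1 T hO h1 t hz'.1 x hz'.2
      obtain ⟨d2, f2, g2⟩ := facts O U2 T hO h2 t hz'.1 x hz'.2
      have htT : t ∈ Ioo 0 T := ⟨hat, by linarith⟩
      rw [e1 t htT x hz'.2] at f1
      rw [e2 t htT x hz'.2] at f2
      have b1 := hb1 t ⟨ha, hb⟩ x (hCsub _ hz).2
      have b2 := hb2 t ⟨ha, hb⟩ x (hCsub _ hz).2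
      set p := gradient (fun y => U1 (t, y)) x with hp
      set q := gradient (fun y => U2 (t, y)) x with hq
      -- direction
      obtain ⟨v, hv, hvp⟩ : ∃ v : E2, ‖v‖ ≤ M ∧ inner ℝ (p - q) v = M * ‖p - q‖ := by
        by_cases hpq : p - q = 0
        · exact ⟨0, by simpa using hM, by simp [hpq]⟩
        · have hn : ‖p - q‖ ≠ 0 := norm_ne_zero_iff.2 hpq
          refine ⟨(M / ‖p - q‖) • (p - q), ?_, ?_⟩
          · rw [norm_smul, Real.norm_eq_abs, abs_of_nonneg (by positivity),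
              div_mul_cancel₀ _ hn]
          · rw [inner_smul_right, real_inner_self_eq_norm_sq]
            field_simp
      -- the segment stays in the cone
      have hseg : segment ℝ ((t, x) : ℝ × E2) ((t, x) + (-t, t • v)) ⊆ C := by
        intro z hzs
        rw [segment_eq_image'] at hzs
        obtain ⟨s, ⟨hs0, hs1⟩, rfl⟩ := hzs
        have e : ((t, x) : ℝ × E2) + s • ((t, x) + (-t, t • v) - (t, x)) =
            (t - s * t, x + (s * t) • v) := by
          ext1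
          · simp; ring
          · simp [smul_smul]
        show (t, x) + s • ((t, x) + (-t, t • v) - (t, x)) ∈ C
        rw [e]
        refine ⟨?_, ?_, ?_⟩
        · show 0 ≤ t - s * t
          nlinarith
        · show t - s * t ≤ t0
          nlinarith
        · show ‖x + (s * t) • v - x0‖ ≤ M * (t0 - (t - s * t))
          have : x + (s * t) • v - x0 = (x - x0) + (s * t) • v := by abel
          rw [this]
          refine (norm_add_le _ _).trans ?_
          have h3 : ‖(s * t) • v‖ ≤ (s * t) * M := by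
            rw [norm_smul, Real.norm_eq_abs, abs_of_nonneg (by positivity)]
            exact mul_le_mul_of_nonneg_left hv (by positivity)
          nlinarith
      have hcone := mem_posTangentConeAt_of_segment_subset hseg
      have hder : HasFDerivAt (fun z : ℝ × E2 => U1 z - U2 z - ε * z.1)
          (fderiv ℝ U1 (t, x) - fderiv ℝ U2 (t, x) - ε • ContinuousLinearMap.fst ℝ ℝ E2) (t, x) := by
        refine (d1.hasFDerivAt.sub d2.hasFDerivAt).sub ?_
        exact (hasFDerivAt_fst).const_mul ε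
      have hle := (hmax.localize).hasFDerivWithinAt_nonpos hder.hasFDerivWithinAt hcone
      have hsplit : ∀ L : ℝ × E2 →L[ℝ] ℝ, L (-t, t • v) = t * (- L (1, 0) + L (0, v)) := by
        intro L
        have : ((-t, t • v) : ℝ × E2) = t • (-((1 : ℝ), (0 : E2)) + ((0 : ℝ), v)) := by
          ext1
          · simp
          · simp
        rw [this, map_smul, map_add, map_neg, smul_eq_mul]
      rw [hsplit] at hle
      have hle2 : -(fderiv ℝ U1 (t, x) - fderiv ℝ U2 (t, x) -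
          ε • ContinuousLinearMap.fst ℝ ℝ E2) (1, 0) +
          (fderiv ℝ U1 (t, x) - fderiv ℝ U2 (t, x) -
          ε • ContinuousLinearMap.fst ℝ ℝ E2) (0, v) ≤ 0 := by
        by_contra hcon
        push Not at hcon
        have := mul_pos hat hcon
        linarith
      simp only [ContinuousLinearMap.sub_apply, ContinuousLinearMap.smul_apply,
        smul_eq_mul] at hle2
      rw [← f1, ← f2, ← g1 v, ← g2 v] at hle2
      have k1 : (ContinuousLinearMap.fst ℝ ℝ E2) (1, 0) = 1 := rfl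
      have k2 : (ContinuousLinearMap.fst ℝ ℝ E2) (0, v) = 0 := rfl
      rw [k1, k2] at hle2
      rw [inner_sub_left] at hvp
      -- `‖p‖² - ‖q‖² = ⟨p + q, p - q⟩`
      have h5 : ‖p‖ ^ 2 - ‖q‖ ^ 2 ≤ 2 * M * ‖p - q‖ := by
        have e3 : inner ℝ (p + q) (p - q) = ‖p‖ ^ 2 - ‖q‖ ^ 2 := by
          rw [inner_add_left, inner_sub_right, inner_sub_right, real_inner_self_eq_norm_sq,
            real_inner_self_eq_norm_sq, real_inner_comm p q]
          ring
        rw [← e3]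
        refine (real_inner_le_norm _ _).trans ?_
        apply mul_le_mul_of_nonneg_right _ (norm_nonneg _)
        have := norm_add_le p q
        linarith
      nlinarith
  refine le_of_forall_pos_le_add fun δ hδ => ?_
  have := key (δ / t0) (by positivity)
  rwa [div_mul_cancel₀ _ ht0.ne'] at this

theorem taskLoc : TaskLoc := by
  intro O Q U1 U2 T hT hO h1 h2 e1 e2 h0 K hKO hK
  obtain ⟨ρ, hρ, hρO⟩ := hK.exists_cthickening_subset_open hO hKO
  have hK'c : IsCompact (Metric.cthickening ρ K) := hK.cthickening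
  have hcomp : IsCompact (Icc 0 (T / 2) ×ˢ Metric.cthickening ρ K) := isCompact_Icc.prod hK'c
  have hsub : Icc 0 (T / 2) ×ˢ Metric.cthickening ρ K ⊆ Ioo (-T) T ×ˢ O := by
    rintro ⟨t, x⟩ ⟨⟨ha, hb⟩, hx⟩
    simp only at ha hb
    exact ⟨⟨by linarith, by linarith⟩, hρO hx⟩
  have hop : IsOpen (Ioo (-T) T ×ˢ O) := isOpen_Ioo.prod hO
  obtain ⟨M1, hM1⟩ := hcomp.exists_bound_of_continuousOn
    ((h1.continuousOn_fderiv_of_isOpen hop le_rfl).mono hsub)
  obtain ⟨M2, hM2⟩ := hcomp.exists_bound_of_continuousOn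
    ((h2.continuousOn_fderiv_of_isOpen hop le_rfl).mono hsub)
  obtain ⟨M, hMd⟩ : ∃ M, M = max 1 (max M1 M2) := ⟨_, rfl⟩
  have hM : 1 ≤ M := by rw [hMd]; exact le_max_left _ _
  have hM1' : M1 ≤ M := by rw [hMd]; exact (le_max_left _ _).trans (le_max_right _ _)
  have hM2' : M2 ≤ M := by rw [hMd]; exact (le_max_right _ _).trans (le_max_right _ _)
  have hM0 : 0 < M := by linarith
  refine ⟨min (T / 2) (ρ / M), lt_min (by linarith) (by positivity),
    (min_le_left _ _).trans_lt (by linarith), ?_⟩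
  rintro t ⟨ht, ht'⟩ x hx
  rcases ht.eq_or_lt with h3 | h3
  · rw [← h3]
    exact h0 x (hKO hx)
  · have hT2 : t ≤ T / 2 := ht'.trans (min_le_left _ _)
    have hρM : M * t ≤ ρ := by
      have := ht'.trans (min_le_right _ _)
      rw [le_div_iff₀ hM0] at this
      linarith
    have hball : Metric.closedBall x (M * t) ⊆ Metric.cthickening ρ K :=
      (Metric.closedBall_subset_closedBall hρM).trans
        (Metric.closedBall_subset_cthickening hx ρ)
    have b1 : ∀ s ∈ Icc 0 t, ∀ y ∈ Metric.cthickening ρ K,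
        ‖gradient (fun y => U1 (s, y)) y‖ ≤ M := by
      intro s hs y hy
      have hm : (s, y) ∈ Icc 0 (T / 2) ×ˢ Metric.cthickening ρ K :=
        ⟨⟨hs.1, hs.2.trans hT2⟩, hy⟩
      exact (norm_grad_le O U1 T hO h1 s (hsub hm).1 y (hsub hm).2).trans ((hM1 _ hm).trans hM1')
    have b2 : ∀ s ∈ Icc 0 t, ∀ y ∈ Metric.cthickening ρ K,
        ‖gradient (fun y => U2 (s, y)) y‖ ≤ M := by
      intro s hs y hy
      have hm : (s, y) ∈ Icc 0 (T / 2) ×ˢ Metric.cthickening ρ K :=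
        ⟨⟨hs.1, hs.2.trans hT2⟩, hy⟩
      exact (norm_grad_le O U2 T hO h2 s (hsub hm).1 y (hsub hm).2).trans ((hM2 _ hm).trans hM2')
    have htT : t < T := by linarith
    apply le_antisymm
    · exact one_side O _ Q U1 U2 T hO h1 h2 e1 e2 h0 M hM0.le hρO t h3 htT b1 b2 x hball
    · exact one_side O _ Q U2 U1 T hO h2 h1 e2 e1 (fun x hx => (h0 x hx).symm) M hM0.le hρO t h3
        htT b2 b1 x hball

end Pool.Agent.H683R3.Noz
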